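import Pool.Agent.H694.NK.Grade

/-!
# Kimura-finiteness of the noncommutative Chow motive of a variety
-/

open CategoryTheory AlgebraicGeometry

universe u v w

namespace Pool.Agent.H694.NK

open Pool.Agent.H914 Pool.Agent.H914.VarClass Pool.Agent.H914.VarClass.Obj Pool.Agent.W492.BB
  Pool.Agent.W550.Corr Pool.Agent.TH133 Pool.Agent.TH829.Prime Pool.Agent.TH829.Kim

set_option linter.unusedSectionVars false

variable {k : Type u} [Field k] {𝒱 : VarClass k}

/-- The noncommutative Chow motive of `X` (the image of `h(X)` in the orbit category of the Chow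
motives under the Tate twist) splits into an even and an odd part: there is an idempotent `e` in the
ring `CH^*(X × X)` of the correspondences of all degrees, not supposed to be homogeneous, such that
`Λ^n (X, e) = 0` and `Sym^m (X, 1 - e) = 0`. -/
def NCKimura (C : TheoryData.{u, v, 0} 𝒱 ℚ) (X : 𝒱.Obj) (n m : ℕ) : Prop :=
  ∃ e : C.A (X.prod X), C.comp e e = e ∧
    (∀ (W : 𝒱.Obj) (x y : Fin n → (W ⟶ X)), altPower C e x y = 0) ∧
    (∀ (W : 𝒱.Obj) (x y : Fin m → (W ⟶ X)), symPower C (dg C X - e) x y = 0)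

/-- The Chow motive of `X` splits into an even part with `Λ^n = 0` and an odd part with
`Sym^m = 0`: the idempotent `e` is supposed to be homogeneous of degree zero. -/
def ChowKimura (C : TheoryData.{u, v, 0} 𝒱 ℚ) (X : 𝒱.Obj) (n m : ℕ) : Prop :=
  ∃ e : C.A (X.prod X), C.Deg X.dim e ∧ C.comp e e = e ∧
    (∀ (W : 𝒱.Obj) (x y : Fin n → (W ⟶ X)), altPower C e x y = 0) ∧
    (∀ (W : 𝒱.Obj) (x y : Fin m → (W ⟶ X)), symPower C (dg C X - e) x y = 0)

section chow

variable {C : TheoryData.{u, v, 0} 𝒱 ℚ} [hC : IsChowProj C] {X Y Z W V : 𝒱.Obj}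

include hC

lemma die_true_iff {n : ℕ} (e : Cor C X) : Die true e n ↔
    ∀ (W : 𝒱.Obj) (x y : Fin n → (W ⟶ X)), altPower C (toB e) x y = 0 := by
  constructor
  · intro h W x y
    rw [altPower_eq]
    exact h W x y
  · intro h W x y
    rw [← altPower_eq]
    exact h W x y

lemma die_false_iff {n : ℕ} (e : Cor C X) : Die false e n ↔
    ∀ (W : 𝒱.Obj) (x y : Fin n → (W ⟶ X)), symPower C (toB e) x y = 0 := by
  constructor
  · intro h W x y
    rw [symPower_eq]
    exact h W x y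
  · intro h W x y
    rw [← symPower_eq]
    exact h W x y

/-- The main step. -/
theorem exists_homogeneous (hne : ∀ X : 𝒱.Obj, (1 : C.A X) ≠ 0) {e : Cor C X} (he : e * e = e)
    {n m : ℕ} (hn : Die true e (n + 1)) (hm : Die false (1 - e) (m + 1)) :
    ∃ f u v : Cor C X, toB f ∈ C.gr (X.prod X) X.dim ∧ f * f = f ∧ u * v = 1 ∧ v * u = 1 ∧
      f = u * e * v := by
  have hs : ∀ a b : Cor C X, trN hne X (a * b) = trN hne X (b * a) := fun a b => trN_comm a b
  have hE := Die.killed (hne := hne) hn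
  have hO := Die.killed (hne := hne) hm
  have hE' := Die.killed (hne := hne) hn.sg
  have hO' := Die.killed (hne := hne) hm.sg
  rw [sg_sub, sg_one] at hO'
  have he' : sg e * sg e = sg e := by rw [← sg_mul, he]
  have h1 : InRad (trN hne X) (e - sg e) := fun γ =>
    tr_sub_mul (tr := trN hne X) hs he he' hE hO hE' hO' γ
  have h2 := inRad_sub_p0 (hne := hne) h1
  have hnil : ∀ x, InRad (trN hne X) x → IsNilpotent x := fun x hx =>
    isNilpotent_of_inRad hs he hE hO hx
  -- the component of degree zero is idempotent up to the radical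
  have h3 : InRad (trN hne X) (p0 e * p0 e - p0 e) := by
    have e1 : p0 e * p0 e - p0 e = (e - p0 e) - (e - p0 e) * e - p0 e * (e - p0 e) +
        (e * e - e) := by noncomm_ring
    rw [e1, he, sub_self, add_zero]
    exact (h2.sub (h2.mul_right e)).sub (h2.mul_left hs (p0 e))
  -- the lift of the idempotent, in the ring of the correspondences of degree zero
  let a : cor0 C X := ⟨p0 e, p0_mem e⟩
  have h4 : IsNilpotent (a * a - a) := by
    obtain ⟨N, hN⟩ := hnil _ h3
    refine ⟨N, Subtype.ext ?_⟩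
    exact hN
  obtain ⟨f, c, hf, hfc⟩ := exists_lift h4
  have hf' : (f : Cor C X) * f = f := congrArg Subtype.val hf
  have hfc' : (f : Cor C X) - p0 e = (p0 e * p0 e - p0 e) * c := congrArg Subtype.val hfc
  have h5 : InRad (trN hne X) ((f : Cor C X) - e) := by
    have e2 : (f : Cor C X) - e = (p0 e * p0 e - p0 e) * c - (e - p0 e) := by
      rw [← hfc']; abel
    rw [e2]
    exact (h3.mul_right _).sub h2
  obtain ⟨u, v, huv, hvu, hfe⟩ := exists_conj hs hf' he hnil h5
  exact ⟨f, u, v, f.2, hf', huv, hvu, hfe⟩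

/-- If one fundamental class vanishes then all do. -/
lemma one_eq_zero_of {X : 𝒱.Obj} (h : (1 : C.A X) = 0) (Y : 𝒱.Obj) : (1 : C.A Y) = 0 := by
  obtain ⟨a, -, h1, -⟩ := hC.exists_deg_one X
  have h2 : a = 0 := by rw [← mul_one a, h, mul_zero]
  have h3 := h1 Y
  rw [h2] at h3
  have h4 : C.push (fst Y X) (C.pull (snd Y X) (0 : C.A X)) = 1 := h3
  rw [map_zero, map_zero] at h4
  exact h4.symm

theorem nc_iff (X : 𝒱.Obj) {n m : ℕ} (hn : 1 ≤ n) (hm : 1 ≤ m) :
    NCKimura C X n m ↔ ChowKimura C X n m := by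
  constructor
  · rintro ⟨e, he, h1, h2⟩
    by_cases hne : ∀ X : 𝒱.Obj, (1 : C.A X) ≠ 0
    · obtain ⟨n, rfl⟩ := Nat.exists_eq_add_of_le' hn
      obtain ⟨m, rfl⟩ := Nat.exists_eq_add_of_le' hm
      have hE : Die true (ofB e) (n + 1) := (die_true_iff _).2 h1
      have hO : Die false (1 - ofB e) (m + 1) := (die_false_iff _).2 (by
        rw [map_sub, toB_one, toB_ofB]
        exact h2)
      have he' : ofB e * ofB e = ofB e := he
      obtain ⟨f, u, v, hf, hff, huv, hvu, hfe⟩ := exists_homogeneous hne he' hE hO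
      refine ⟨toB f, hf, hff, ?_, ?_⟩
      · rw [← die_true_iff, hfe]
        exact hE.conj
      · have e1 : dg C X - toB f = toB (u * (1 - ofB e) * v) := by
          have e2 : u * (1 - ofB e) * v = 1 - f := by
            rw [mul_sub, sub_mul, mul_one, huv, ← hfe]
          rw [e2, map_sub, toB_one]
        rw [e1, ← die_false_iff]
        exact hO.conj
    · push Not at hne
      obtain ⟨Y, hY⟩ := hne
      have h0 : ∀ (Z : 𝒱.Obj) (z : C.A Z), z = 0 := fun Z z => by
        rw [← mul_one z, one_eq_zero_of hY Z, mul_zero]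
      exact ⟨0, Submodule.zero_mem _, h0 _ _, fun W x y => h0 _ _, fun W x y => h0 _ _⟩
  · rintro ⟨e, -, he, h1, h2⟩
    exact ⟨e, he, h1, h2⟩

/-- Every decomposition is conjugate to a homogeneous one. -/
theorem conj_homogeneous {X : 𝒱.Obj} {e : C.A (X.prod X)} (he : C.comp e e = e) {n m : ℕ}
    (hn : 1 ≤ n) (hm : 1 ≤ m)
    (h1 : ∀ (W : 𝒱.Obj) (x y : Fin n → (W ⟶ X)), altPower C e x y = 0)
    (h2 : ∀ (W : 𝒱.Obj) (x y : Fin m → (W ⟶ X)), symPower C (dg C X - e) x y = 0) :
    ∃ f u v : C.A (X.prod X), C.Deg X.dim f ∧ C.comp f f = f ∧ C.comp u v = dg C X ∧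
      C.comp v u = dg C X ∧ f = C.comp v (C.comp e u) := by
  by_cases hne : ∀ X : 𝒱.Obj, (1 : C.A X) ≠ 0
  · obtain ⟨n, rfl⟩ := Nat.exists_eq_add_of_le' hn
    obtain ⟨m, rfl⟩ := Nat.exists_eq_add_of_le' hm
    have hE : Die true (ofB e) (n + 1) := (die_true_iff _).2 h1
    have hO : Die false (1 - ofB e) (m + 1) := (die_false_iff _).2 (by
      rw [map_sub, toB_one, toB_ofB]
      exact h2)
    have he' : ofB e * ofB e = ofB e := he
    obtain ⟨f, u, v, hf, hff, huv, hvu, hfe⟩ := exists_homogeneous hne he' hE hO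
    exact ⟨toB f, toB u, toB v, hf, hff, hvu, huv, hfe⟩
  · push Not at hne
    obtain ⟨Y, hY⟩ := hne
    have h0 : ∀ (Z : 𝒱.Obj) (z : C.A Z), z = 0 := fun Z z => by
      rw [← mul_one z, one_eq_zero_of hY Z, mul_zero]
    exact ⟨0, 0, 0, Submodule.zero_mem _, h0 _ _, (h0 _ _).trans (h0 _ _).symm,
      (h0 _ _).trans (h0 _ _).symm, (h0 _ _).symm⟩

lemma isKimuraFinite_rat_iff (X : 𝒱.Obj) : IsKimuraFinite C (ratFam C) X ↔
    ∃ n m : ℕ, 1 ≤ n ∧ 1 ≤ m ∧ ChowKimura C X n m := by
  constructor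
  · rintro ⟨e, hd, he, ⟨n, hn, h1⟩, ⟨m, hm, h2⟩⟩
    refine ⟨n, m, hn, hm, e, hd, sub_eq_zero.1 ((Submodule.mem_bot ℚ).1 he), fun W x y => ?_,
      fun W x y => ?_⟩
    · exact (Submodule.mem_bot ℚ).1 (h1 W x y)
    · exact (Submodule.mem_bot ℚ).1 (h2 W x y)
  · rintro ⟨n, m, hn, hm, e, hd, he, h1, h2⟩
    refine ⟨e, hd, ?_, ⟨n, hn, fun W x y => ?_⟩, ⟨m, hm, fun W x y => ?_⟩⟩
    · rw [he, sub_self]
      exact Submodule.zero_mem _
    · rw [h1]
      exact Submodule.zero_mem _
    · rw [h2]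
      exact Submodule.zero_mem _

end chow

end Pool.Agent.H694.NK
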