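import Pool.Agent.TH829.Kim.Main

/-!
# The ring of all self-correspondences (of all degrees) and its trace
-/

open CategoryTheory AlgebraicGeometry

universe u v w

namespace Pool.Agent.H694.NK

open Pool.Agent.H914 Pool.Agent.H914.VarClass Pool.Agent.H914.VarClass.Obj Pool.Agent.W492.BB
  Pool.Agent.W550.Corr Pool.Agent.TH133 Pool.Agent.TH829.Prime Pool.Agent.TH829.Kim

set_option linter.unusedSectionVars false

variable {k : Type u} [Field k] {𝒱 : VarClass k}

section chow

variable {C : TheoryData.{u, v, 0} 𝒱 ℚ} [hC : IsChowProj C] {X Y Z W V : 𝒱.Obj}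

include hC

lemma hasDegree_of_ne {i : ℤ} {x : C.A X} (hx : x ∈ C.gr X i) (hi : i ≠ X.dim) :
    HasDegree C x 0 := by
  intro Y
  rw [zero_smul]
  rcases lt_or_gt_of_ne hi with h | h
  · constructor
    · have h2 := C.push_mem (snd X Y) (C.pull_mem (fst X Y) hx)
      rw [C.gr_neg Y _ (by rw [dim_prod]; push_cast; omega)] at h2
      exact (Submodule.mem_bot _).1 h2
    · have h2 := C.push_mem (fst Y X) (C.pull_mem (snd Y X) hx)
      rw [C.gr_neg Y _ (by rw [dim_prod]; push_cast; omega)] at h2
      exact (Submodule.mem_bot _).1 h2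
  · rw [hC.gr_top X i _ hx h]
    constructor
    · rw [map_zero, map_zero]
    · rw [map_zero, map_zero]

/-- An additive property of homogeneous classes holds for all classes. -/
lemma homInd {X : 𝒱.Obj} {p : C.A X → Prop} (h0 : ∀ i x, x ∈ C.gr X i → p x) (hz : p 0)
    (h1 : ∀ x y, p x → p y → p (x + y)) (x : C.A X) : p x := by
  have h : x ∈ ⨆ i, C.gr X i := by rw [(C.isInternal X).submodule_iSup_eq_top]; trivial
  exact Submodule.iSup_induction (C.gr X) (motive := p) h h0 hz h1

lemma exists_deg_all (x : C.A X) : ∃ q, HasDegree C x q := by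
  refine homInd (C := C) (p := fun x => ∃ q, HasDegree C x q) ?_ ⟨0, hasDegree_zero⟩ ?_ x
  · intro i x hx
    by_cases h : i = X.dim
    · subst h
      exact exists_hasDegree hx
    · exact ⟨0, hasDegree_of_ne hx h⟩
  · rintro x y ⟨q, hq⟩ ⟨r, hr⟩
    exact ⟨q + r, HasDegree.add hq hr⟩

/-- The class of a self-correspondence. -/
noncomputable def toB : Cor C X →ₗ[ℚ] C.A (X.prod X) where
  toFun a := a
  map_add' _ _ := rfl
  map_smul' _ _ := rfl

lemma toB_mul (a b : Cor C X) : toB (a * b) = C.comp (toB b) (toB a) := rfl

lemma toB_one : toB (1 : Cor C X) = dg C X := rfl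

lemma toB_inj {a b : Cor C X} (h : toB a = toB b) : a = b := h

/-- The trace of a self-correspondence: the degree of its restriction to the diagonal. -/
noncomputable def trN (hne : ∀ X : 𝒱.Obj, (1 : C.A X) ≠ 0) (X : 𝒱.Obj) : Cor C X →ₗ[ℚ] ℚ where
  toFun a := (exists_deg_all (ev (toB a) (𝟙 X) (𝟙 X))).choose
  map_add' a b := by
    apply hasDegree_uniq (hne X) (exists_deg_all _).choose_spec
    have h := HasDegree.add (exists_deg_all (ev (toB a) (𝟙 X) (𝟙 X))).choose_spec
      (exists_deg_all (ev (toB b) (𝟙 X) (𝟙 X))).choose_spec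
    rw [← ev_add, ← map_add toB] at h
    exact h
  map_smul' r a := by
    apply hasDegree_uniq (hne X) (exists_deg_all _).choose_spec
    have h := HasDegree.smul r (exists_deg_all (ev (toB a) (𝟙 X) (𝟙 X))).choose_spec
    rw [← ev_smul, ← map_smul toB] at h
    exact h

variable {hne : ∀ X : 𝒱.Obj, (1 : C.A X) ≠ 0}

lemma trN_spec (a : Cor C X) : HasDegree C (ev (toB a) (𝟙 X) (𝟙 X)) (trN hne X a) :=
  (exists_deg_all _).choose_spec

/-- The trace of a composition as an intersection number. -/
lemma trN_mul (a b : Cor C X) : HasDegree C (toB b * tp C (toB a)) (trN hne X (a * b)) := by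
  obtain ⟨q, hq⟩ := exists_deg_all (C := C) (X := X.prod X) (toB b * tp C (toB a))
  have h1 := hasDegree_push (fst X X) hq
  have h2 := trN_spec (hne := hne) (a * b)
  rw [toB_mul, ev_comp] at h2
  have e1 : ev (toB b) (fst X X ≫ 𝟙 X) (snd X X) = toB b := by
    rw [Category.comp_id, ev_univ]
  have e2 : ev (toB a) (snd X X) (fst X X ≫ 𝟙 X) = tp C (toB a) := by
    rw [Category.comp_id]
    rfl
  rw [e1, e2] at h2
  rwa [hasDegree_uniq (hne X) h1 h2] at hq

lemma trN_comm (a b : Cor C X) : trN hne X (a * b) = trN hne X (b * a) := by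
  apply hasDegree_uniq (hne X) (trN_mul (hne := hne) a b)
  have h := tp_hasDegree (trN_mul (hne := hne) b a)
  have e : tp C (toB a * tp C (toB b)) = toB b * tp C (toB a) := by
    rw [tp, map_mul, ch_comm C]
    congr 1
    change tp C (tp C (toB b)) = _
    rw [tp_tp]
  rwa [e] at h

/-! ### The contractions -/

/-- The family of the determinants. -/
noncomputable def grN (s : Bool) {n : ℕ} (a : Fin n → Cor C X) : Fam C X n :=
  fun W x y => gr (W := W) s (fun i => toB (a i)) x y

/-- The family of the values of a correspondence. -/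
noncomputable def evN : Cor C X →ₗ[ℚ] Fam C X 1 where
  toFun a := fun _ x y => ev (toB a) (x 0) (y 0)
  map_add' a b := by
    funext W x y
    exact map_add _ _ _
  map_smul' q a := by
    funext W x y
    exact map_smul _ _ _

lemma conL_grN (s : Bool) {n : ℕ} (a : Fin (n + 1) → Cor C X) :
    conL C X n (grN s a) = trN hne X (a 0) • grN s (fun i => a i.succ) +
      eta s • ∑ i, grN s (Function.update (fun i => a i.succ) i (a 0 * a i.succ)) := by
  funext W x y
  have h := push_gr (W := W) s (fun i => toB (a i)) x y (trN_spec (hne := hne) (a 0))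
  have h1 : ∀ i : Fin n, (fun j => toB (Function.update (fun i => a i.succ) i
      (a 0 * a i.succ) j)) = Function.update (fun i => toB (a i.succ)) i
        (C.comp (toB (a i.succ)) (toB (a 0))) := by
    intro i
    funext j
    by_cases hj : j = i
    · subst hj
      rw [Function.update_self, Function.update_self, toB_mul]
    · rw [Function.update_of_ne hj, Function.update_of_ne hj]
  rw [Pi.add_apply, Pi.add_apply, Pi.add_apply, Pi.smul_apply, Pi.smul_apply, Pi.smul_apply,
    Pi.smul_apply, Pi.smul_apply, Pi.smul_apply, Finset.sum_apply, Finset.sum_apply,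
    Finset.sum_apply]
  have h2 : ∀ i : Fin n, grN s (Function.update (fun i => a i.succ) i (a 0 * a i.succ)) W x y =
      gr s (Function.update (fun i => toB (a i.succ)) i
        (C.comp (toB (a i.succ)) (toB (a 0)))) x y := by
    intro i
    rw [← h1]
    rfl
  rw [Finset.sum_congr rfl (fun i _ => h2 i)]
  exact h

/-- The contraction of all but one pair of points. -/
lemma iterL_grN (s : Bool) (n : ℕ) (a : Fin (n + 1) → Cor C X) :
    iterL C X n (grN s a) = evN (K (trN hne X) (eta s) n a) := by
  induction n with
  | zero =>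
    funext W x y
    exact gr_one s _ x y
  | succ n ih =>
    rw [iterL, LinearMap.comp_apply, conL_grN (hne := hne), map_add, map_smul, map_smul, map_sum,
      K_succ, map_add, map_smul, map_smul, map_sum, ih]
    congr 2
    exact Finset.sum_congr rfl (fun i _ => ih _)

/-- The contraction of all pairs of points. -/
lemma iterL0_grN (s : Bool) (n : ℕ) (a : Fin n → Cor C X) :
    iterL0 C X n (grN s a) = F (trN hne X) (eta s) n a • (fun _ _ _ => 1 : Fam C X 0) := by
  induction n with
  | zero =>
    rw [F, one_smul]
    funext W x y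
    exact gr_zero s _ x y
  | succ n ih =>
    rw [iterL0, LinearMap.comp_apply, conL_grN (hne := hne), map_add, map_smul, map_smul, map_sum,
      F_succ, ih, Finset.sum_congr rfl (fun i _ => ih _), add_smul, mul_smul, mul_smul,
      Finset.sum_smul]

/-! ### Vanishing of determinants -/

variable {ι : Type} [Fintype ι] [DecidableEq ι]

variable (C X) in
/-- The determinants vanish. -/
def V0 {ι : Type} [Fintype ι] [DecidableEq ι] (s : Bool) (p : ι → ι → C.A (X.prod X)) : Prop :=
  ∀ (W : 𝒱.Obj) (x y : ι → (W ⟶ X)), gd s p x y = 0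

lemma V0.row {s : Bool} {p : ι → ι → C.A (X.prod X)}
    (h : V0 C X s p) (i : ι) (a : C.A (X.prod X)) :
    V0 C X s (Function.update p i (fun j => C.comp a (p i j))) := by
  intro W x y
  rw [gd_row, h, mul_zero, map_zero]

lemma V0.col {s : Bool} {p : ι → ι → C.A (X.prod X)}
    (h : V0 C X s p) (j : ι) (b : C.A (X.prod X)) :
    V0 C X s (fun i l => if l = j then C.comp (p i l) b else p i l) := by
  intro W x y
  rw [gd_col, h, mul_zero, map_zero]

lemma V0.rows {s : Bool} {f : C.A (X.prod X)}
    (h : V0 C X (ι := ι) s (fun _ _ => f)) (a : ι → C.A (X.prod X)) :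
    V0 C X s (fun i (_ : ι) => C.comp (a i) f) := by
  have key : ∀ T : Finset ι, V0 C X s (fun i (_ : ι) => if i ∈ T then C.comp (a i) f else f) := by
    intro T
    induction T using Finset.induction_on with
    | empty => simpa using h
    | insert i T hi ih =>
      have h1 := ih.row i (a i)
      convert h1 using 1
      funext j l
      by_cases hj : j = i
      · subst hj
        rw [Function.update_self, if_pos (Finset.mem_insert_self _ _), if_neg hi]
      · rw [Function.update_of_ne hj]
        by_cases hjT : j ∈ T
        · rw [if_pos hjT, if_pos (Finset.mem_insert_of_mem hjT)]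
        · rw [if_neg hjT, if_neg (by simp [hj, hjT])]
  have := key Finset.univ
  simpa using this

lemma V0.cols {s : Bool} {p : ι → ι → C.A (X.prod X)}
    (h : V0 C X s p) (b : C.A (X.prod X)) :
    V0 C X s (fun i j => C.comp (p i j) b) := by
  have key : ∀ T : Finset ι, V0 C X s (fun i j => if j ∈ T then C.comp (p i j) b else p i j) := by
    intro T
    induction T using Finset.induction_on with
    | empty => simpa using h
    | insert l T hl ih =>
      have h1 := ih.col l b
      convert h1 using 1
      funext i j
      by_cases hj : j = l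
      · subst hj
        rw [if_pos (Finset.mem_insert_self _ _), if_pos rfl, if_neg hl]
      · rw [if_neg hj]
        by_cases hjT : j ∈ T
        · rw [if_pos hjT, if_pos (Finset.mem_insert_of_mem hjT)]
        · rw [if_neg hjT, if_neg (by simp [hj, hjT])]
  have := key Finset.univ
  simpa using this

/-- The (anti)symmetrizations of the self-correspondence `f` with `n` factors vanish. -/
def Die (s : Bool) (f : Cor C X) (n : ℕ) : Prop :=
  V0 C X (ι := Fin n) s (fun _ _ => toB f)

lemma Die.killed {s : Bool} {f : Cor C X} {n : ℕ} (h : Die s f (n + 1)) :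
    Killed (trN hne X) (eta s) f n := by
  have key : ∀ a : Fin (n + 1) → Cor C X, (∀ i, f * a i = a i) → grN s a = 0 := by
    intro a ha
    have h2 := V0.rows h (fun i => toB (a i))
    funext W x y
    have h3 := h2 W x y
    have h4 : (fun (i _ : Fin (n + 1)) => C.comp (toB (a i)) (toB f)) =
        fun (i _ : Fin (n + 1)) => toB (a i) := by
      funext i _
      rw [← toB_mul, ha]
    rw [h4] at h3
    exact h3
  constructor
  · intro a ha
    have h1 := iterL_grN (hne := hne) s n a
    rw [key a ha, map_zero] at h1
    have h2 := congrFun (congrFun (congrFun h1 (X.prod X)) (fun _ => fst X X)) (fun _ => snd X X)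
    have h4 : evN (K (trN hne X) (eta s) n a) (X.prod X) (fun _ => fst X X) (fun _ => snd X X) =
        toB (K (trN hne X) (eta s) n a) := ev_univ _
    rw [h4] at h2
    exact toB_inj (h2.symm.trans (map_zero toB).symm)
  · intro a ha
    have h1 := iterL0_grN (hne := hne) s (n + 1) a
    rw [key a ha, map_zero] at h1
    have h2 := congrFun (congrFun (congrFun h1 X) Fin.elim0) Fin.elim0
    have h3 : F (trN hne X) (eta s) (n + 1) a • (1 : C.A X) = 0 := h2.symm
    exact (smul_eq_zero.1 h3).resolve_right (hne X)

/-- Conjugate self-correspondences die together. -/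
lemma Die.conj {s : Bool} {f u v : Cor C X} {n : ℕ} (h : Die s f n) : Die s (u * f * v) n := by
  have h1 : V0 C X (ι := Fin n) s (fun _ _ => toB (f * v)) := V0.rows h (fun _ => toB v)
  have h3 := V0.cols h1 (toB u)
  rw [mul_assoc]
  exact h3

end chow

end Pool.Agent.H694.NK
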