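import Pool.Agent.H694.NK.Full
import Mathlib.Algebra.DirectSum.Module

/-!
# Scaling the degrees
-/

open CategoryTheory AlgebraicGeometry

universe u v w

namespace Pool.Agent.H694.NK

open Pool.Agent.H914 Pool.Agent.H914.VarClass Pool.Agent.H914.VarClass.Obj Pool.Agent.W492.BB
  Pool.Agent.W550.Corr Pool.Agent.TH133 Pool.Agent.TH829.Prime Pool.Agent.TH829.Kim

set_option linter.unusedSectionVars false

variable {k : Type u} [Field k] {𝒱 : VarClass k}

section chow

variable {C : TheoryData.{u, v, 0} 𝒱 ℚ} [hC : IsChowProj C] {X Y Z W V : 𝒱.Obj}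

include hC

variable (C) in
/-- The linear map which is the multiplication by `f i` in degree `i`. -/
noncomputable def hm (f : ℤ → ℚ) (X : 𝒱.Obj) : C.A X →ₗ[ℚ] C.A X :=
  (DirectSum.toModule ℚ ℤ (C.A X) (fun i => f i • (C.gr X i).subtype)) ∘ₗ
    (LinearEquiv.ofBijective (DirectSum.coeLinearMap (C.gr X)) (C.isInternal X)).symm.toLinearMap

lemma hm_of_mem (f : ℤ → ℚ) {i : ℤ} {x : C.A X} (hx : x ∈ C.gr X i) :
    hm C f X x = f i • x := by
  have h : (LinearEquiv.ofBijective (DirectSum.coeLinearMap (C.gr X)) (C.isInternal X)).symm x =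
      DirectSum.lof ℚ ℤ (fun i => C.gr X i) i ⟨x, hx⟩ := by
    rw [LinearEquiv.symm_apply_eq, LinearEquiv.ofBijective_apply, DirectSum.coeLinearMap_lof]
  rw [hm, LinearMap.comp_apply]
  change (DirectSum.toModule ℚ ℤ (C.A X) (fun i => f i • (C.gr X i).subtype))
    ((LinearEquiv.ofBijective (DirectSum.coeLinearMap (C.gr X)) (C.isInternal X)).symm x) = _
  rw [h, DirectSum.toModule_lof]
  rfl

variable (C) in
/-- Multiplication by `2 ^ i` in degree `i`. -/
noncomputable abbrev sc (X : 𝒱.Obj) : C.A X →ₗ[ℚ] C.A X := hm C (fun i => (2 : ℚ) ^ i) X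

lemma sc_of_mem {i : ℤ} {x : C.A X} (hx : x ∈ C.gr X i) : sc C X x = (2 : ℚ) ^ i • x :=
  hm_of_mem _ hx

lemma sc_one : sc C X (1 : C.A X) = 1 := by
  rw [sc_of_mem (C.one_mem X), zpow_zero, one_smul]

lemma sc_mul (a b : C.A X) : sc C X (a * b) = sc C X a * sc C X b := by
  refine homInd (C := C) (p := fun a => sc C X (a * b) = sc C X a * sc C X b) ?_ ?_ ?_ a
  · intro i a ha
    refine homInd (C := C) (p := fun b => sc C X (a * b) = sc C X a * sc C X b) ?_ ?_ ?_ b
    · intro j b hb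
      rw [sc_of_mem (C.mul_mem ha hb), sc_of_mem ha, sc_of_mem hb, smul_mul_smul_comm,
        ← zpow_add₀ (two_ne_zero)]
    · rw [mul_zero, map_zero, mul_zero]
    · intro x y hx hy
      rw [mul_add, map_add, map_add, mul_add, hx, hy]
  · rw [zero_mul, map_zero, zero_mul]
  · intro x y hx hy
    rw [add_mul, map_add, map_add, add_mul, hx, hy]

lemma sc_pull (f : X ⟶ Y) (b : C.A Y) : sc C X (C.pull f b) = C.pull f (sc C Y b) := by
  refine homInd (C := C) (p := fun b => sc C X (C.pull f b) = C.pull f (sc C Y b)) ?_ ?_ ?_ b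
  · intro j b hb
    rw [sc_of_mem (C.pull_mem f hb), sc_of_mem hb, map_smul]
  · rw [map_zero, map_zero, map_zero, map_zero]
  · intro x y hx hy
    rw [map_add, map_add, map_add, map_add, hx, hy]

lemma sc_push (f : X ⟶ Y) (a : C.A X) :
    sc C Y (C.push f a) = (2 : ℚ) ^ ((Y.dim : ℤ) - X.dim) • C.push f (sc C X a) := by
  refine homInd (C := C) (p := fun a => sc C Y (C.push f a) =
    (2 : ℚ) ^ ((Y.dim : ℤ) - X.dim) • C.push f (sc C X a)) ?_ ?_ ?_ a
  · intro j b hb
    have h := C.push_mem f hb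
    rw [sc_of_mem h, sc_of_mem hb, map_smul, smul_smul, ← zpow_add₀ (two_ne_zero)]
    congr 2
    ring
  · rw [map_zero, map_zero, map_zero, map_zero, smul_zero]
  · intro x y hx hy
    rw [map_add, map_add, map_add, map_add, smul_add, hx, hy]

lemma sc_comp (a b : C.A (X.prod X)) : sc C (X.prod X) (C.comp a b) =
    (2 : ℚ) ^ (-(X.dim : ℤ)) • C.comp (sc C _ a) (sc C _ b) := by
  rw [TheoryData.comp, TheoryData.comp, sc_push, sc_mul, sc_pull, sc_pull]
  congr 2
  simp only [dim_prod]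
  push_cast
  ring

variable (C) in
/-- Scaling as a homomorphism of rings. -/
noncomputable def scR (X : 𝒱.Obj) : C.A X →+* C.A X where
  toFun := sc C X
  map_one' := sc_one
  map_mul' := sc_mul
  map_zero' := map_zero _
  map_add' := map_add _

lemma scR_apply (a : C.A X) : scR C X a = sc C X a := rfl

lemma scR_ev (p : C.A (X.prod X)) (x y : W ⟶ X) :
    scR C W (ev p x y) = ev (sc C (X.prod X) p) x y := sc_pull _ _

lemma V0_sc {s : Bool} {n : ℕ} {p : C.A (X.prod X)}
    (h : V0 C X (ι := Fin n) s (fun _ _ => p)) :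
    V0 C X (ι := Fin n) s (fun _ _ => sc C (X.prod X) p) := by
  intro W x y
  have h1 := congrArg (scR C W) (h W x y)
  rw [map_zero, gd, map_sum] at h1
  rw [gd, ← h1]
  apply Finset.sum_congr rfl
  intro σ _
  rw [map_zsmul, map_prod]
  simp only [scR_ev]

/-! ### The scaling of the ring of self-correspondences -/

/-- The self-correspondence with a given class. -/
def ofB (a : C.A (X.prod X)) : Cor C X := a

lemma toB_ofB (a : C.A (X.prod X)) : toB (ofB a) = a := rfl

lemma ofB_toB (a : Cor C X) : ofB (toB a) = a := rfl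

/-- Multiplication by `2 ^ i` on the self-correspondences of degree `i`. -/
noncomputable def sg (a : Cor C X) : Cor C X :=
  (2 : ℚ) ^ (-(X.dim : ℤ)) • ofB (sc C (X.prod X) (toB a))

lemma toB_sg (a : Cor C X) :
    toB (sg a) = (2 : ℚ) ^ (-(X.dim : ℤ)) • sc C (X.prod X) (toB a) := by
  rw [sg, map_smul, toB_ofB]

lemma toB_sg_of_mem {a : Cor C X} {i : ℤ} (ha : toB a ∈ C.gr (X.prod X) i) :
    sg a = (2 : ℚ) ^ (i - X.dim) • a := by
  apply toB_inj
  rw [toB_sg, sc_of_mem ha, smul_smul, ← zpow_add₀ (two_ne_zero), map_smul]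
  congr 2
  ring

lemma sg_mul (a b : Cor C X) : sg (a * b) = sg a * sg b := by
  have h : ∀ (c : ℚ) (x y : Cor C X), (c • x) * (c • y) = (c * c) • (x * y) := fun c x y => by
    rw [smul_mul_assoc, mul_smul_comm, smul_smul]
  apply toB_inj
  rw [toB_sg, sg, sg, h, map_smul, toB_mul, toB_mul, toB_ofB, toB_ofB, sc_comp, smul_smul]

lemma sg_one : sg (1 : Cor C X) = 1 := by
  have h : toB (1 : Cor C X) ∈ C.gr (X.prod X) X.dim := dg_mem C X
  rw [toB_sg_of_mem h, sub_self, zpow_zero, one_smul]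

lemma sg_sub (a b : Cor C X) : sg (a - b) = sg a - sg b := by
  apply toB_inj
  rw [map_sub, toB_sg, toB_sg, toB_sg, map_sub, map_sub, smul_sub]

lemma Die.smul {s : Bool} {f : Cor C X} {n : ℕ} (c : ℚ) (h : Die s f n) : Die s (c • f) n := by
  have h1 := Die.conj (u := c • (1 : Cor C X)) (v := 1) h
  rwa [mul_one, smul_mul_assoc, one_mul] at h1

lemma Die.sg {s : Bool} {f : Cor C X} {n : ℕ} (h : Die s f n) : Die s (sg f) n :=
  Die.smul _ (V0_sc h)

variable {hne : ∀ X : 𝒱.Obj, (1 : C.A X) ≠ 0}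

lemma trN_of_ne {a : Cor C X} {i : ℤ} (ha : toB a ∈ C.gr (X.prod X) i) (hi : i ≠ X.dim) :
    trN hne X a = 0 :=
  hasDegree_uniq (hne X) (trN_spec (hne := hne) a) (hasDegree_of_ne (ev_mem ha _ _) hi)

lemma toB_mul_mem {a b : Cor C X} {i j : ℤ} (ha : toB a ∈ C.gr (X.prod X) i)
    (hb : toB b ∈ C.gr (X.prod X) j) : toB (a * b) ∈ C.gr (X.prod X) (i + j - X.dim) := by
  have h := C.push_mem (t13 X X X) (C.mul_mem (C.pull_mem (t23 X X X) ha)
    (C.pull_mem (fst (X.prod X) X) hb))
  have e : i + j + 1 * (((X.prod X).dim : ℤ) - ((X.prod X).prod X).dim) = i + j - X.dim := by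
    simp only [dim_prod]; push_cast; ring
  rw [e] at h
  exact h

lemma homIndB {p : Cor C X → Prop} (h0 : ∀ i x, toB x ∈ C.gr (X.prod X) i → p x) (hz : p 0)
    (h1 : ∀ x y, p x → p y → p (x + y)) (x : Cor C X) : p x :=
  homInd (C := C) (X := X.prod X) (p := fun a => p (ofB a)) (fun i a ha => h0 i (ofB a) ha) hz
    (fun a b ha hb => h1 (ofB a) (ofB b) ha hb) (toB x)

lemma trN_sg_mul {a γ : Cor C X} {j : ℤ} (hγ : toB γ ∈ C.gr (X.prod X) j) :
    trN hne X (sg a * γ) = (2 : ℚ) ^ ((X.dim : ℤ) - j) * trN hne X (a * γ) := by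
  refine homIndB (p := fun a => trN hne X (sg a * γ) =
    (2 : ℚ) ^ ((X.dim : ℤ) - j) * trN hne X (a * γ)) ?_ ?_ ?_ a
  · intro i a ha
    rw [toB_sg_of_mem ha, smul_mul_assoc, map_smul, smul_eq_mul]
    by_cases h : i + j - X.dim = X.dim
    · congr 2
      linarith
    · rw [trN_of_ne (hne := hne) (toB_mul_mem ha hγ) h, mul_zero, mul_zero]
  · have h0 : sg (0 : Cor C X) = 0 := by
      have := sg_sub (0 : Cor C X) 0
      rwa [sub_self, sub_self] at this
    rw [h0, zero_mul, map_zero, mul_zero]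
  · intro x y hx hy
    have h0 : sg (x + y) = sg x + sg y := by
      apply toB_inj
      rw [map_add, toB_sg, toB_sg, toB_sg, map_add, map_add, smul_add]
    rw [h0, add_mul, add_mul, map_add, map_add, hx, hy, mul_add]

/-- The component of degree zero. -/
noncomputable def p0 (a : Cor C X) : Cor C X :=
  ofB (hm C (fun i => if i = X.dim then 1 else 0) (X.prod X) (toB a))

lemma p0_of_mem {a : Cor C X} {i : ℤ} (ha : toB a ∈ C.gr (X.prod X) i) :
    p0 a = (if i = X.dim then (1 : ℚ) else 0) • a := by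
  apply toB_inj
  rw [p0, toB_ofB, hm_of_mem _ ha, map_smul]

lemma p0_zero : p0 (0 : Cor C X) = 0 := by
  apply toB_inj
  rw [p0, toB_ofB, map_zero, map_zero]

lemma p0_add (x y : Cor C X) : p0 (x + y) = p0 x + p0 y := by
  apply toB_inj
  rw [map_add, p0, p0, p0, toB_ofB, toB_ofB, toB_ofB, map_add, map_add]

lemma p0_mem (a : Cor C X) : toB (p0 a) ∈ C.gr (X.prod X) X.dim := by
  refine homIndB (p := fun a => toB (p0 a) ∈ C.gr (X.prod X) X.dim) ?_ ?_ ?_ a
  · intro i a ha
    rw [p0_of_mem ha]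
    split_ifs with h
    · rw [one_smul, ← h]
      exact ha
    · rw [zero_smul, map_zero]
      exact Submodule.zero_mem _
  · rw [p0_zero, map_zero]
    exact Submodule.zero_mem _
  · intro x y hx hy
    rw [p0_add, map_add]
    exact Submodule.add_mem _ hx hy

lemma trN_p0_mul {a γ : Cor C X} (hγ : toB γ ∈ C.gr (X.prod X) X.dim) :
    trN hne X (p0 a * γ) = trN hne X (a * γ) := by
  refine homIndB (p := fun a => trN hne X (p0 a * γ) = trN hne X (a * γ)) ?_ ?_ ?_ a
  · intro i a ha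
    rw [p0_of_mem ha]
    split_ifs with h
    · rw [one_smul]
    · rw [zero_smul, zero_mul, map_zero,
        trN_of_ne (hne := hne) (toB_mul_mem ha hγ) (by omega)]
  · rw [p0_zero]
  · intro x y hx hy
    rw [p0_add, add_mul, add_mul, map_add, map_add, hx, hy]

/-- A self-correspondence which agrees with its scaling up to the radical agrees with its component
of degree zero up to the radical. -/
lemma inRad_sub_p0 {a : Cor C X} (h : InRad (trN hne X) (a - sg a)) :
    InRad (trN hne X) (a - p0 a) := by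
  intro γ
  refine homIndB (p := fun γ => trN hne X ((a - p0 a) * γ) = 0) ?_ ?_ ?_ γ
  · intro j γ hγ
    rw [sub_mul, map_sub]
    by_cases hj : j = X.dim
    · subst hj
      rw [trN_p0_mul (hne := hne) hγ, sub_self]
    · have h1 := h γ
      rw [sub_mul, map_sub, trN_sg_mul (hne := hne) hγ] at h1
      have h2 : (1 - (2 : ℚ) ^ ((X.dim : ℤ) - j)) * trN hne X (a * γ) = 0 := by
        rw [sub_mul, one_mul, h1]
      have h3 : (1 - (2 : ℚ) ^ ((X.dim : ℤ) - j)) ≠ 0 := by
        intro h4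
        have h5 : (2 : ℚ) ^ ((X.dim : ℤ) - j) = 1 := by linarith
        rcases (zpow_eq_one_iff_of_ne_zero₀ (a := (2 : ℚ)) (by omega : (X.dim : ℤ) - j ≠ 0)).1 h5
          with h6 | h6
        · norm_num at h6
        · norm_num at h6
      have h4 := (mul_eq_zero.1 h2).resolve_left h3
      rw [h4, zero_sub, neg_eq_zero]
      exact trN_of_ne (hne := hne) (toB_mul_mem (p0_mem a) hγ) (by omega)
  · rw [mul_zero, map_zero]
  · intro x y hx hy
    rw [mul_add, map_add, hx, hy, add_zero]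

end chow

end Pool.Agent.H694.NK
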