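import Pool.Agent.H694.NK.Final

/-!
# Determinants of rectangular correspondences
-/

open CategoryTheory AlgebraicGeometry

universe u v w

namespace Pool.Agent.H694.NK

open Pool.Agent.H914 Pool.Agent.H914.VarClass Pool.Agent.H914.VarClass.Obj Pool.Agent.W492.BB
  Pool.Agent.W550.Corr Pool.Agent.TH133 Pool.Agent.TH829.Prime Pool.Agent.TH829.Kim

set_option linter.unusedSectionVars false

variable {k : Type u} [Field k] {𝒱 : VarClass k}

section chow

variable {C : TheoryData.{u, v, 0} 𝒱 ℚ} [hC : IsChowProj C] {X Y Z W V : 𝒱.Obj}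

include hC

/-- The value of a correspondence. -/
noncomputable def ev2 (p : C.A (X.prod Y)) (x : W ⟶ X) (y : W ⟶ Y) : C.A W :=
  C.pull (Obj.lift x y) p

lemma pull_ev2 (g : V ⟶ W) (p : C.A (X.prod Y)) (x : W ⟶ X) (y : W ⟶ Y) :
    C.pull g (ev2 p x y) = ev2 p (g ≫ x) (g ≫ y) := by
  rw [ev2, ev2, ← C.pull_comp, comp_lift]

/-- The exchange of the last two factors of `(X × Z) × Y`. -/
noncomputable def rho2 (X Y Z : 𝒱.Obj) : (X.prod Z).prod Y ⟶ (X.prod Y).prod Z :=
  Obj.lift (Obj.lift (fst (X.prod Z) Y ≫ fst X Z) (snd (X.prod Z) Y))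
    (fst (X.prod Z) Y ≫ snd X Z)

omit hC in
lemma rho2_rho2 (X Y Z : 𝒱.Obj) : rho2 X Y Z ≫ rho2 X Z Y = 𝟙 _ := by
  apply prod_ext
  · apply prod_ext <;> simp [rho2, comp_lift]
  · simp [rho2, comp_lift]

/-- The value of a composition. -/
lemma ev2_comp (a : C.A (X.prod Y)) (b : C.A (Y.prod Z)) (x : W ⟶ X) (z : W ⟶ Z) :
    ev2 (C.comp a b) x z = C.push (fst W Y) (ev2 a (fst W Y ≫ x) (snd W Y) *
      ev2 b (snd W Y) (fst W Y ≫ z)) := by
  have e1 : t13 X Y Z = rho2 X Z Y ≫ fst (X.prod Z) Y := by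
    apply prod_ext <;> simp [rho2, comp_lift]
  have e2 : (prodMap (Obj.lift x z) (𝟙 Y) ≫ rho2 X Y Z) ≫ t23 X Y Z =
      Obj.lift (snd W Y) (fst W Y ≫ z) := by
    apply prod_ext <;> simp [rho2, comp_lift]
  have e3 : (prodMap (Obj.lift x z) (𝟙 Y) ≫ rho2 X Y Z) ≫ fst (X.prod Y) Z =
      Obj.lift (fst W Y ≫ x) (snd W Y) := by
    apply prod_ext <;> simp [rho2, comp_lift]
  rw [ev2, TheoryData.comp, e1, C.push_comp,
    ← pull_iso C (rho2 X Y Z) (rho2 X Z Y) (rho2_rho2 X Y Z) (rho2_rho2 X Z Y),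
    base_pull, ← C.pull_comp, map_mul, ← C.pull_comp, ← C.pull_comp, e2, e3, ch_comm C]
  rfl

/-- All rows. -/
lemma exists_rows (a : C.A (X.prod Y)) (n : ℕ) {W : 𝒱.Obj} (x : Fin n → (W ⟶ X)) :
    ∃ (V : 𝒱.Obj) (g : V ⟶ W) (y : Fin n → (V ⟶ Y)) (c : C.A V), ∀ (Z : 𝒱.Obj)
      (p : C.A (Y.prod Z)) (z : Fin n → (W ⟶ Z)),
      ∏ i, ev2 (C.comp a p) (x i) (z i) = C.push g (c * ∏ i, ev2 p (y i) (g ≫ z i)) := by
  induction n with
  | zero =>
    refine ⟨W, 𝟙 W, Fin.elim0, 1, fun Z p z => ?_⟩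
    rw [Finset.univ_eq_empty, Finset.prod_empty, Finset.prod_empty, mul_one, C.push_id]
  | succ n ih =>
    obtain ⟨V, g, y, c, h⟩ := ih (fun i => x i.succ)
    refine ⟨V.prod Y, fst V Y ≫ g, Fin.cons (snd V Y) (fun i => fst V Y ≫ y i),
      C.pull (fst V Y) c * ev2 a (fst V Y ≫ g ≫ x 0) (snd V Y), fun Z p z => ?_⟩
    have h1 : ∏ i : Fin n, ev2 p ((Fin.cons (snd V Y) (fun i => fst V Y ≫ y i) :
        Fin (n + 1) → (V.prod Y ⟶ Y)) i.succ) ((fst V Y ≫ g) ≫ z i.succ) =
        C.pull (fst V Y) (∏ i : Fin n, ev2 p (y i) (g ≫ z i.succ)) := by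
      rw [map_prod]
      apply Finset.prod_congr rfl
      intro i _
      rw [pull_ev2, Fin.cons_succ, Category.assoc]
    have h2 : C.pull (fst V Y) c * ev2 a (fst V Y ≫ g ≫ x 0) (snd V Y) *
        (ev2 p (snd V Y) ((fst V Y ≫ g) ≫ z 0) *
          C.pull (fst V Y) (∏ i : Fin n, ev2 p (y i) (g ≫ z i.succ))) =
        (ev2 a (fst V Y ≫ g ≫ x 0) (snd V Y) * ev2 p (snd V Y) (fst V Y ≫ g ≫ z 0)) *
          C.pull (fst V Y) (c * ∏ i : Fin n, ev2 p (y i) (g ≫ z i.succ)) := by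
      rw [map_mul, Category.assoc]
      ring
    rw [Fin.prod_univ_succ, Fin.prod_univ_succ, C.push_comp, h1, Fin.cons_zero, h2, C.proj_right,
      ← ev2_comp, ← pull_ev2, C.proj_left, ← h]

/-- All columns. -/
lemma exists_cols (b : C.A (Y.prod Z)) (n : ℕ) {W : 𝒱.Obj} (z : Fin n → (W ⟶ Z)) :
    ∃ (V : 𝒱.Obj) (g : V ⟶ W) (y : Fin n → (V ⟶ Y)) (c : C.A V), ∀ (X : 𝒱.Obj)
      (p : C.A (X.prod Y)) (x : Fin n → (W ⟶ X)),
      ∏ i, ev2 (C.comp p b) (x i) (z i) = C.push g (c * ∏ i, ev2 p (g ≫ x i) (y i)) := by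
  induction n with
  | zero =>
    refine ⟨W, 𝟙 W, Fin.elim0, 1, fun Z p z => ?_⟩
    rw [Finset.univ_eq_empty, Finset.prod_empty, Finset.prod_empty, mul_one, C.push_id]
  | succ n ih =>
    obtain ⟨V, g, y, c, h⟩ := ih (fun i => z i.succ)
    refine ⟨V.prod Y, fst V Y ≫ g, Fin.cons (snd V Y) (fun i => fst V Y ≫ y i),
      C.pull (fst V Y) c * ev2 b (snd V Y) (fst V Y ≫ g ≫ z 0), fun X p x => ?_⟩
    have h1 : ∏ i : Fin n, ev2 p ((fst V Y ≫ g) ≫ x i.succ)
        ((Fin.cons (snd V Y) (fun i => fst V Y ≫ y i) : Fin (n + 1) → (V.prod Y ⟶ Y)) i.succ) =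
        C.pull (fst V Y) (∏ i : Fin n, ev2 p (g ≫ x i.succ) (y i)) := by
      rw [map_prod]
      apply Finset.prod_congr rfl
      intro i _
      rw [pull_ev2, Fin.cons_succ, Category.assoc]
    have h2 : C.pull (fst V Y) c * ev2 b (snd V Y) (fst V Y ≫ g ≫ z 0) *
        (ev2 p ((fst V Y ≫ g) ≫ x 0) (snd V Y) *
          C.pull (fst V Y) (∏ i : Fin n, ev2 p (g ≫ x i.succ) (y i))) =
        (ev2 p (fst V Y ≫ g ≫ x 0) (snd V Y) * ev2 b (snd V Y) (fst V Y ≫ g ≫ z 0)) *
          C.pull (fst V Y) (c * ∏ i : Fin n, ev2 p (g ≫ x i.succ) (y i)) := by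
      rw [map_mul, Category.assoc]
      ring
    rw [Fin.prod_univ_succ, Fin.prod_univ_succ, C.push_comp, h1, Fin.cons_zero, h2, C.proj_right,
      ← ev2_comp, ← pull_ev2, C.proj_left, ← h]

/-- The determinant (or permanent) of a correspondence. -/
noncomputable def gd2 (s : Bool) {n : ℕ} (p : C.A (X.prod Y)) (x : Fin n → (W ⟶ X))
    (y : Fin n → (W ⟶ Y)) : C.A W :=
  ∑ σ : Equiv.Perm (Fin n), wt s σ • ∏ i, ev2 p (x i) (y (σ i))

/-- All determinants vanish. -/
def V2 (s : Bool) (n : ℕ) (p : C.A (X.prod Y)) : Prop :=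
  ∀ (W : 𝒱.Obj) (x : Fin n → (W ⟶ X)) (y : Fin n → (W ⟶ Y)), gd2 s p x y = 0

lemma V2.rows {s : Bool} {n : ℕ} {p : C.A (Y.prod Z)} (h : V2 s n p) (a : C.A (X.prod Y)) :
    V2 s n (C.comp a p) := by
  intro W x z
  obtain ⟨V, g, y, c, h1⟩ := exists_rows a n x
  have h2 := h V y (fun i => g ≫ z i)
  have h3 : gd2 s (C.comp a p) x z = C.push g (c * gd2 s p y (fun i => g ≫ z i)) := by
    rw [gd2, gd2, Finset.mul_sum, map_sum]
    apply Finset.sum_congr rfl
    intro σ _
    rw [mul_smul_comm, map_zsmul, h1 Z p (fun i => z (σ i))]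
  rw [h3, h2, mul_zero, map_zero]

lemma V2.cols {s : Bool} {n : ℕ} {p : C.A (X.prod Y)} (h : V2 s n p) (b : C.A (Y.prod Z)) :
    V2 s n (C.comp p b) := by
  intro W x z
  obtain ⟨V, g, y, c, h1⟩ := exists_cols b n z
  have h2 := h V (fun i => g ≫ x i) y
  have h3 : gd2 s (C.comp p b) x z = C.push g (c * gd2 s p (fun i => g ≫ x i) y) := by
    rw [gd2, gd2, Finset.mul_sum, map_sum]
    apply Finset.sum_congr rfl
    intro σ _
    rw [mul_smul_comm, map_zsmul]
    congr 1
    have h4 : ∏ i, ev2 (C.comp p b) (x i) (z (σ i)) =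
        ∏ j, ev2 (C.comp p b) (x (σ.symm j)) (z j) := by
      rw [← Equiv.prod_comp σ (fun j => ev2 (C.comp p b) (x (σ.symm j)) (z j))]
      apply Finset.prod_congr rfl
      intro i _
      rw [Equiv.symm_apply_apply]
    have h5 : ∏ i, ev2 p (g ≫ x i) (y (σ i)) = ∏ j, ev2 p (g ≫ x (σ.symm j)) (y j) := by
      rw [← Equiv.prod_comp σ (fun j => ev2 p (g ≫ x (σ.symm j)) (y j))]
      apply Finset.prod_congr rfl
      intro i _
      rw [Equiv.symm_apply_apply]
    rw [h4, h5, h1 X p (fun j => x (σ.symm j))]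
  rw [h3, h2, mul_zero, map_zero]

lemma die_iff_V2 {s : Bool} {n : ℕ} (e : Cor C X) : Die s e n ↔ V2 s n (toB e) := Iff.rfl

end chow

/-! ### Direct summands -/

section ring

variable {R : Type*} [Ring R] [Algebra ℚ R] {tr : R →ₗ[ℚ] ℚ}

lemma inRad_even_odd (hsym : ∀ a b, tr (a * b) = tr (b * a)) {e g : R} (he : e * e = e)
    (hg : g * g = g) {n m : ℕ} (hE : Killed tr (-1) e n) (hO : Killed tr 1 g m) (b : R) :
    InRad tr (e * b * g) := by
  intro γ
  rw [← even_odd hsym he hg hE hO b γ]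
  have e1 : (e * b * g) * (g * γ * e) = (e * b * g * γ) * e := by
    calc (e * b * g) * (g * γ * e) = e * b * (g * g) * γ * e := by simp only [mul_assoc]
      _ = _ := by rw [hg]
  rw [e1, hsym (e * b * g * γ) e]
  have e2 : e * (e * b * g * γ) = e * b * g * γ := by
    simp only [← mul_assoc, he]
  rw [e2]

lemma inRad_odd_even (hsym : ∀ a b, tr (a * b) = tr (b * a)) {e g : R} (he : e * e = e)
    (hg : g * g = g) {n m : ℕ} (hE : Killed tr (-1) e n) (hO : Killed tr 1 g m) (b : R) :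
    InRad tr (g * b * e) := by
  intro γ
  have h1 := even_odd hsym he hg hE hO γ b
  rw [hsym] at h1
  rw [← h1]
  have e1 : (g * b * e) * (e * γ * g) = (g * b * e * γ) * g := by
    calc (g * b * e) * (e * γ * g) = g * b * (e * e) * γ * g := by simp only [mul_assoc]
      _ = _ := by rw [he]
  rw [e1, hsym (g * b * e * γ) g]
  have e2 : g * (g * b * e * γ) = g * b * e * γ := by
    simp only [← mul_assoc, hg]
  rw [e2]

/-- An idempotent `q` with `q - q d q` in the radical factors through `d`. -/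
lemma factor_of_inRad {q d : R} (hnil : ∀ x, InRad tr x → IsNilpotent x) (hq : q * q = q)
    (h : InRad tr (q - q * d * q)) : ∃ x y, q = x * d * y := by
  obtain ⟨w, hw⟩ := (hnil _ h).isUnit_one_sub
  refine ⟨q, q * ↑w⁻¹, ?_⟩
  have h1 : q * (1 - (q - q * d * q)) = q * d * q := by
    have : q * (q * d * q) = q * d * q := by rw [← mul_assoc, ← mul_assoc, hq]
    rw [mul_sub, mul_one, mul_sub, hq, this]
    abel
  calc q = q * ((1 - (q - q * d * q)) * ↑w⁻¹) := by rw [← hw, Units.mul_inv, mul_one]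
    _ = q * (1 - (q - q * d * q)) * ↑w⁻¹ := (mul_assoc _ _ _).symm
    _ = q * d * q * ↑w⁻¹ := by rw [h1]
    _ = q * d * (q * ↑w⁻¹) := mul_assoc _ _ _

/-- Direct summands of a sum of an even and an odd piece. -/
theorem exists_summand (hsym : ∀ a b, tr (a * b) = tr (b * a)) {e : R} (he : e * e = e)
    {n m : ℕ} (hE : Killed tr (-1) e n) (hO : Killed tr 1 (1 - e) m) {p : R} (hp : p * p = p) :
    ∃ f x y x' y' : R, f * f = f ∧ p * f = f ∧ f * p = f ∧ f = x * e * y ∧
      p - f = x' * (1 - e) * y' := by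
  have hg : (1 - e) * (1 - e) = 1 - e := by
    rw [mul_sub, sub_mul, sub_mul, one_mul, one_mul, mul_one, he, sub_self, sub_zero]
  have hnil : ∀ x, InRad tr x → IsNilpotent x := fun x hx =>
    isNilpotent_of_inRad hsym he hE hO hx
  have h1 : InRad tr (e * p - p * e) := by
    have e1 : e * p - p * e = e * p * (1 - e) - (1 - e) * p * e := by noncomm_ring
    rw [e1]
    exact (inRad_even_odd hsym he hg hE hO p).sub (inRad_odd_even hsym he hg hE hO p)
  set h := p * e * p with hh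
  have hph : p * h = h := by rw [hh, ← mul_assoc, ← mul_assoc, hp]
  have hhp : h * p = h := by rw [hh, mul_assoc, hp]
  have h2 : InRad tr (h * h - h) := by
    have e2 : h * h - h = -(p * e * ((e * p - p * e) * p)) := by
      have e3 : h * h = p * e * (p * e * p) := by
        calc h * h = p * e * (p * p) * e * p := by rw [hh]; simp only [mul_assoc]
          _ = _ := by rw [hp]; simp only [mul_assoc]
      have e4 : p * e * (e * p * p) = h := by
        calc p * e * (e * p * p) = p * (e * e) * (p * p) := by simp only [mul_assoc]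
          _ = _ := by rw [he, hp]
      rw [sub_mul, mul_sub, e4, neg_sub, e3]
    rw [e2]
    exact ((h1.mul_right p).mul_left hsym _).neg
  obtain ⟨f1, c, hf1, hfc⟩ := exists_lift (hnil _ h2)
  have hpf1 : p * f1 = f1 := by
    have e5 : p * (f1 - h) = f1 - h := by
      rw [hfc, ← mul_assoc, mul_sub p (h * h), ← mul_assoc, hph]
    rw [mul_sub, hph] at e5
    exact sub_left_injective e5
  set f := f1 * p with hf
  have hff : f * f = f := by
    calc f * f = f1 * (p * f1) * p := by rw [hf]; simp only [mul_assoc]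
      _ = _ := by rw [hpf1, hf1]
  have hpf : p * f = f := by rw [hf, ← mul_assoc, hpf1]
  have hfp : f * p = f := by rw [hf, mul_assoc, hp]
  have h3 : InRad tr (f - h) := by
    have e6 : f - h = (h * h - h) * c * p := by
      rw [← hfc, sub_mul, hhp]
    rw [e6]
    exact (h2.mul_right _).mul_right _
  obtain ⟨x, y, hxy⟩ := factor_of_inRad (tr := tr) (d := e) hnil hff (by
    have e7 : f - f * e * f = f * ((f - h) * f) := by
      have e8 : f * e * f = f * h * f := by
        calc f * e * f = (f * p) * e * (p * f) := by rw [hfp, hpf]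
          _ = _ := by rw [hh]; simp only [mul_assoc]
      rw [e8, sub_mul, mul_sub, hff, hff]
      simp only [mul_assoc]
    rw [e7]
    exact (h3.mul_right f).mul_left hsym f)
  have hqq : (p - f) * (p - f) = p - f := by
    rw [mul_sub, sub_mul, sub_mul, hp, hfp, hpf, hff, sub_self, sub_zero]
  obtain ⟨x', y', hxy'⟩ := factor_of_inRad (tr := tr) (d := 1 - e) hnil hqq (by
    have e9 : (p - f) - (p - f) * (1 - e) * (p - f) = -((p - f) * ((f - h) * (p - f))) := by
      have e10 : (p - f) * e * (p - f) = (p - f) * h * (p - f) := by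
        have e11 : (p - f) * p = p - f := by rw [sub_mul, hp, hfp]
        have e12 : p * (p - f) = p - f := by rw [mul_sub, hp, hpf]
        calc (p - f) * e * (p - f) = ((p - f) * p) * e * (p * (p - f)) := by rw [e11, e12]
          _ = _ := by rw [hh]; simp only [mul_assoc]
      have e13 : (p - f) * f = 0 := by rw [sub_mul, hpf, hff, sub_self]
      rw [mul_sub (p - f) 1 e, mul_one, sub_mul ((p - f)) ((p - f) * e), hqq, e10, sub_mul f h,
        mul_sub (p - f) (f * (p - f)), ← mul_assoc (p - f) f, e13, zero_mul, zero_sub, neg_neg,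
        mul_assoc (p - f) h]
      abel
    rw [e9]
    exact ((h3.mul_right _).mul_left hsym _).neg)
  exact ⟨f, x, y, x', y', hff, hpf, hfp, hxy, hxy'⟩

end ring

end Pool.Agent.H694.NK
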