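import Pool.Agent.H694.NK.Rect

/-!
# Noncommutative direct summands of Kimura-finite motives
-/

open CategoryTheory AlgebraicGeometry

universe u v w

namespace Pool.Agent.H694.NK

open Pool.Agent.H914 Pool.Agent.H914.VarClass Pool.Agent.H914.VarClass.Obj Pool.Agent.W492.BB
  Pool.Agent.W550.Corr Pool.Agent.TH133 Pool.Agent.TH829.Prime Pool.Agent.TH829.Kim

set_option linter.unusedSectionVars false

variable {k : Type u} [Field k] {𝒱 : VarClass k}

section chow

variable {C : TheoryData.{u, v, 0} 𝒱 ℚ} [hC : IsChowProj C] {X Y Z W V : 𝒱.Obj}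

include hC

theorem nc_summand (a : C.A (X.prod Y)) (b : C.A (Y.prod X)) (hab : C.comp a b = dg C X)
    {n m : ℕ} (hn : 1 ≤ n) (hm : 1 ≤ m) (h : NCKimura C Y n m) : NCKimura C X n m := by
  obtain ⟨e, he, h1, h2⟩ := h
  by_cases hne : ∀ X : 𝒱.Obj, (1 : C.A X) ≠ 0
  · obtain ⟨n, rfl⟩ := Nat.exists_eq_add_of_le' hn
    obtain ⟨m, rfl⟩ := Nat.exists_eq_add_of_le' hm
    have hEd : Die true (ofB e) (n + 1) := (die_true_iff _).2 h1
    have hOd : Die false (1 - ofB e) (m + 1) := (die_false_iff _).2 (by
      rw [map_sub, toB_one, toB_ofB]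
      exact h2)
    have he' : ofB e * ofB e = ofB e := he
    have hs : ∀ a b : Cor C Y, trN hne Y (a * b) = trN hne Y (b * a) := fun a b => trN_comm a b
    set P := C.comp b a with hP
    have hPP : C.comp P P = P := by
      have h3 : C.comp a P = a := by
        rw [hP, ← comp_assoc C a b a, hab, dg_comp C a]
      calc C.comp P P = C.comp b (C.comp a P) := comp_assoc C b a P
        _ = P := by rw [h3]
    obtain ⟨f, x, y, x', y', hff, hpf, hfp, hxy, hxy'⟩ := exists_summand (tr := trN hne Y) hs he'
      (Die.killed (hne := hne) hEd) (Die.killed (hne := hne) hOd) (p := ofB P) hPP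
    have hF : C.comp (toB f) (toB f) = toB f := congrArg toB hff
    have hFP : C.comp (toB f) P = toB f := congrArg toB hpf
    have hPF : C.comp P (toB f) = toB f := congrArg toB hfp
    have hVf : V2 true (n + 1) (toB f) := by
      rw [← die_iff_V2, hxy]
      exact hEd.conj
    have hVg : V2 false (m + 1) (P - toB f) := by
      have h3 : V2 false (m + 1) (toB (ofB P - f)) := by
        rw [← die_iff_V2, hxy']
        exact hOd.conj
      rwa [map_sub, toB_ofB] at h3
    refine ⟨C.comp (C.comp a (toB f)) b, ?_, ?_, ?_⟩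
    · calc C.comp (C.comp (C.comp a (toB f)) b) (C.comp (C.comp a (toB f)) b)
          = C.comp (C.comp a (toB f)) (C.comp b (C.comp (C.comp a (toB f)) b)) :=
            comp_assoc C _ _ _
        _ = C.comp (C.comp a (toB f)) (C.comp (C.comp b (C.comp a (toB f))) b) := by
            rw [comp_assoc C b (C.comp a (toB f)) b]
        _ = C.comp (C.comp a (toB f)) (C.comp (C.comp P (toB f)) b) := by
            rw [hP, comp_assoc C b a (toB f)]
        _ = C.comp (C.comp a (toB f)) (C.comp (toB f) b) := by rw [hPF]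
        _ = C.comp (C.comp (C.comp a (toB f)) (toB f)) b := (comp_assoc C _ _ _).symm
        _ = C.comp (C.comp a (C.comp (toB f) (toB f))) b := by
            rw [comp_assoc C a (toB f) (toB f)]
        _ = C.comp (C.comp a (toB f)) b := by rw [hF]
    · have h3 : V2 true (n + 1) (C.comp (C.comp a (toB f)) b) := (hVf.rows a).cols b
      exact (die_true_iff (ofB (C.comp (C.comp a (toB f)) b))).1 h3
    · have h3 : V2 false (m + 1) (C.comp (C.comp a (P - toB f)) b) := (hVg.rows a).cols b
      have h4 : dg C X - C.comp (C.comp a (toB f)) b = C.comp (C.comp a (P - toB f)) b := by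
        have h5 : C.comp (C.comp a P) b = dg C X := by
          rw [hP, ← comp_assoc C a b a, hab, dg_comp C a, hab]
        rw [← h5, sub_eq_iff_eq_add, ← add_comp C, ← comp_add C, sub_add_cancel]
      rw [h4]
      exact (die_false_iff (ofB (C.comp (C.comp a (P - toB f)) b))).1 h3
  · push Not at hne
    obtain ⟨Y', hY'⟩ := hne
    have h0 : ∀ (Z : 𝒱.Obj) (z : C.A Z), z = 0 := fun Z z => by
      rw [← mul_one z, one_eq_zero_of hY' Z, mul_zero]
    exact ⟨0, h0 _ _, fun W x y => h0 _ _, fun W x y => h0 _ _⟩

end chow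

end Pool.Agent.H694.NK
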